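import Pool.Agent.N594.NT.Stm3

/-!
# Norms of the degrees of pairs: no loss (leaf NT2/EQ, helper249)
-/

set_option autoImplicit false

open Finset
open scoped Classical

namespace Pool.Agent.N249.NT.EQ

open Pool.Agent.TH200.LP Pool.Agent.N594.NT

theorem av_zero_of_le {Ω : Type} [Fintype Ω] {f : Ω → ℝ} (h0 : ∀ ω, 0 ≤ f ω) (h : av f ≤ 0)
    (ω : Ω) : f ω = 0 := by
  unfold av at h
  have hc : (0 : ℝ) < (Fintype.card Ω : ℝ) := by
    exact_mod_cast Fintype.card_pos_iff.2 ⟨ω⟩
  have h1 : ∑ ω, f ω ≤ 0 := by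
    by_contra hcon
    push Not at hcon
    exact absurd h (not_le.2 (div_pos hcon hc))
  have h2 : ∑ ω, f ω = 0 := le_antisymm h1 (sum_nonneg fun i _ => h0 i)
  exact (sum_eq_zero_iff_of_nonneg fun i _ => h0 i).1 h2 ω (mem_univ ω)

theorem ind_zero {P : Prop} (h : ind P = 0) : ¬ P := by
  intro hP
  rw [ind_true hP] at h
  exact one_ne_zero h

section gen

variable {V κ : Type} {d : ℕ}

theorem enum (e : Finset V) {m : ℕ} (h : e.card = m) :
    ∃ f : Fin m → V, Function.Injective f ∧ ∀ a, a ∈ e ↔ ∃ i, f i = a := by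
  refine ⟨fun i => ((e.equivFinOfCardEq h).symm i : V), ?_, fun a => ?_⟩
  · intro i j hij
    exact (e.equivFinOfCardEq h).symm.injective (Subtype.ext hij)
  · constructor
    · intro ha
      exact ⟨e.equivFinOfCardEq h ⟨a, ha⟩, by simp⟩
    · rintro ⟨i, rfl⟩
      exact ((e.equivFinOfCardEq h).symm i).2

theorem enum2 (e : Finset V) (x y : V) (hx : x ∈ e) (hy : y ∈ e) (hxy : x ≠ y)
    (h : e.card = d + 2) :
    ∃ z : Fin d → V, Function.Injective (Fin.cons x (Fin.cons y z : Fin (d + 1) → V) :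
      Fin (d + 2) → V) ∧ insert x (insert y (univ.image z)) = e := by
  set e' : Finset V := e.filter fun a => a ≠ x ∧ a ≠ y with he'
  have hc' : e'.card = d := by
    have h1 : (e.filter fun a => ¬ (a ≠ x ∧ a ≠ y)) = {x, y} := by
      ext a
      rw [mem_filter, mem_insert, mem_singleton]
      constructor
      · rintro ⟨-, h⟩
        by_contra hcon
        push Not at hcon
        exact h hcon
      · rintro (rfl | rfl)
        · exact ⟨hx, fun h => h.1 rfl⟩
        · exact ⟨hy, fun h => h.2 rfl⟩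
    have h2 : e'.card + (e.filter fun a => ¬ (a ≠ x ∧ a ≠ y)).card = e.card := by
      rw [he', card_filter, card_filter, card_eq_sum_ones, ← sum_add_distrib]
      refine sum_congr rfl fun a _ => ?_
      by_cases h : a ≠ x ∧ a ≠ y
      · rw [if_pos h, if_neg (not_not.2 h)]
      · rw [if_neg h, if_pos h]
    rw [h1, card_pair hxy, h] at h2
    omega
  obtain ⟨z, hz1, hz2⟩ := enum e' hc'
  have hr : ∀ a, (a ∈ e ∧ a ≠ x ∧ a ≠ y) ↔ ∃ i, z i = a := by
    intro a
    rw [← hz2, he', mem_filter]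
  refine ⟨z, ?_, ?_⟩
  · rw [Fin.cons_injective_iff, Fin.cons_injective_iff]
    refine ⟨?_, ?_, hz1⟩
    · rintro ⟨i, hi⟩
      induction i using Fin.cases with
      | zero =>
        rw [Fin.cons_zero] at hi
        exact hxy hi.symm
      | succ i =>
        rw [Fin.cons_succ] at hi
        exact ((hr _).2 ⟨i, rfl⟩).2.1 hi
    · rintro ⟨i, hi⟩
      exact ((hr _).2 ⟨i, rfl⟩).2.2 hi
  · ext a
    rw [mem_insert, mem_insert, mem_image]
    constructor
    · rintro (rfl | rfl | ⟨i, -, hi⟩)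
      · exact hx
      · exact hy
      · exact ((hr a).2 ⟨i, hi⟩).1
    · intro ha
      by_cases h1 : a = x
      · exact Or.inl h1
      · by_cases h2 : a = y
        · exact Or.inr (Or.inl h2)
        · obtain ⟨i, hi⟩ := (hr a).1 ⟨ha, h1, h2⟩
          exact Or.inr (Or.inr ⟨i, mem_univ _, hi⟩)

variable [Fintype V]

theorem mdg_nonneg (H : Finset V → Prop) (x y : V) : 0 ≤ mdg d H x y :=
  av_nonneg fun _ => ind_nonneg _

theorem mdg_zero {H : Finset V → Prop} {x y : V} (h : mdg d H x y ≤ 0) (z : Fin d → V)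
    (hz : Function.Injective (Fin.cons x (Fin.cons y z : Fin (d + 1) → V) : Fin (d + 2) → V)) :
    H (insert x (insert y (univ.image z))) := by
  unfold mdg at h
  have h3 := ind_zero (av_zero_of_le (fun z => ind_nonneg _) h z)
  by_contra hcon
  exact h3 ⟨hz, hcon⟩

theorem lsi_zero {H : Finset V → Prop} {π : V → κ} (h : lsi d H π ≤ 0) {x y : V}
    (hxy : π x ≠ π y) : mdg d H x y ≤ 0 := by
  unfold lsi at h
  have h1 := av_zero_of_le
    (fun x => av_nonneg fun y => mul_nonneg (ind_nonneg _) (mdg_nonneg _ _ _)) h x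
  have h2 := av_zero_of_le (fun y => mul_nonneg (ind_nonneg _) (mdg_nonneg _ _ _)) h1.le y
  rw [ind_true hxy, one_mul] at h2
  exact h2.le

theorem ein_zero {H : Finset V → Prop} {π : V → κ} (h : ein d H π ≤ 0) (f : Fin (d + 2) → V)
    (hf : ∀ i, π (f i) = π (f 0)) : ¬ H (univ.image f) := by
  unfold ein at h
  have h3 := ind_zero (av_zero_of_le (fun z => ind_nonneg _) h f)
  exact fun hcon => h3 ⟨hcon, hf⟩

theorem general {H : Finset V → Prop} {π : V → κ} (hl : lsi d H π ≤ 0) (he : ein d H π ≤ 0)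
    (e : Finset V) (hcard : e.card = d + 2) : H e ↔ ∃ x ∈ e, ∃ y ∈ e, π x ≠ π y := by
  constructor
  · intro heG
    by_contra hcon
    push Not at hcon
    obtain ⟨f, -, hf⟩ := enum e hcard
    have him : univ.image f = e := by
      ext a
      rw [mem_image, hf]
      simp
    refine ein_zero he f (fun i => ?_) (him ▸ heG)
    exact hcon _ ((hf _).2 ⟨i, rfl⟩) _ ((hf _).2 ⟨0, rfl⟩)
  · rintro ⟨x, hx, y, hy, hxy⟩
    obtain ⟨z, hz1, hz2⟩ := enum2 e x y hx hy (fun h => hxy (by rw [h])) hcard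
    have h1 := mdg_zero (lsi_zero hl hxy) z hz1
    rwa [hz2] at h1

end gen

theorem main : Pool.Agent.N594.NT.S_EQ := by
  intro d n k G π _ _ hG hl he
  ext e
  unfold TP
  rw [mem_filter, mem_powersetCard]
  constructor
  · intro heG
    exact ⟨⟨subset_univ _, hG e heG⟩, (general hl he e (hG e heG)).1 heG⟩
  · rintro ⟨⟨-, hcard⟩, h⟩
    exact (general hl he e hcard).2 h

end Pool.Agent.N249.NT.EQ
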